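import Mathlib
import Pool.Agent.Lib.MP_33914b_an.Main

set_option autoImplicit false

/-! # Isomorphism of K-automorphisms is not classifiable by countable structures

For every Borel action of `S_∞` (the group `Equiv.Perm ℕ`) on a standard Borel space `Y` there is no Borel map
`f : KAutos → Y` such that two K-automorphisms `S`, `T` are isomorphic if and only if `f S` and `f T` are in the
same orbit. This is the negated form of Q2. -/

open KAut in
/-- The isomorphism relation on K-automorphisms is not Borel reducible to the orbit equivalence relation of any
Borel action of `S_∞` on a standard Borel space. -/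
theorem Pool.Agent.Results.MP_33914b_an.NotClassifiableByStructures.result
    (Y : Type*) [MeasurableSpace Y] [StandardBorelSpace Y] [MulAction (Equiv.Perm ℕ) Y]
    (hY : Measurable (fun p : Equiv.Perm ℕ × Y => p.1 • p.2)) :
    ¬ ∃ f : KAutos → Y, Measurable f ∧
      ∀ S T : KAutos, Aut.Iso S.1 T.1 ↔ ∃ σ : Equiv.Perm ℕ, σ • f S = f T :=
  KAut.main Y hY
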